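import Pool.Agent.H207.TP.Stm2

/-!
# ORBP: derivatives of the orbit maps of polynomials
-/

set_option autoImplicit false

open Metric Set MeasureTheory Filter Topology Polynomial
open scoped OnePoint ENNReal

namespace Pool.Agent.H618.TP207

open Pool.Agent.H792R2.CE Pool.Agent.H207.TF Pool.Agent.H207.TP
open Pool.Agent.H211.LD (pol)

theorem ev_pol {d : ℕ} (a : PC d) (x : ℂ) : ev (pol a) x = ∑ i : Fin (d + 1), a i * x ^ (i : ℕ) := by
  simp [ev, pol, eval_finsetSum]

theorem der_pol {d : ℕ} (a : PC d) (x : ℂ) : (derivative (pol a)).eval x =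
    ∑ i : Fin (d + 1), a i * ((i : ℕ) * x ^ ((i : ℕ) - 1)) := by
  simp only [pol, derivative_sum, derivative_C_mul, derivative_X_pow, eval_finsetSum, eval_mul,
    eval_C, eval_pow, eval_X]

theorem step {d : ℕ} {p : ℂ → PC d} {v : PC d} (hp : HasDerivAt p v 0) {c : ℂ → ℂ} {w : ℂ}
    (hc : HasDerivAt c w 0) :
    HasDerivAt (fun s => ev (pol (p s)) (c s))
      ((pol v).eval (c 0) + (derivative (pol (p 0))).eval (c 0) * w) 0 := by
  have h1 : ∀ i, HasDerivAt (fun s => p s i) (v i) 0 := hasDerivAt_pi.1 hp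
  have h2 : HasDerivAt (fun s => ∑ i : Fin (d + 1), p s i * c s ^ (i : ℕ))
      (∑ i : Fin (d + 1), (v i * c 0 ^ (i : ℕ) +
        p 0 i * ((i : ℕ) * c 0 ^ ((i : ℕ) - 1) * w))) 0 := by
    have := HasDerivAt.fun_sum (u := Finset.univ) (x := (0 : ℂ))
      (A := fun (i : Fin (d + 1)) s => p s i * c s ^ (i : ℕ))
      (A' := fun i => (v i * c 0 ^ (i : ℕ) + p 0 i * ((i : ℕ) * c 0 ^ ((i : ℕ) - 1) * w)))
      (fun i _ => (h1 i).mul (hc.fun_pow (i : ℕ)))
    exact this
  have h3 : (fun s => ev (pol (p s)) (c s)) =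
      fun s => ∑ i : Fin (d + 1), p s i * c s ^ (i : ℕ) := by
    funext s
    exact ev_pol _ _
  have h4 : (pol v).eval (c 0) + (derivative (pol (p 0))).eval (c 0) * w =
      ∑ i : Fin (d + 1), (v i * c 0 ^ (i : ℕ) +
        p 0 i * ((i : ℕ) * c 0 ^ ((i : ℕ) - 1) * w)) := by
    have h5 : (pol v).eval (c 0) = ∑ i : Fin (d + 1), v i * c 0 ^ (i : ℕ) := ev_pol v (c 0)
    rw [h5, der_pol, Finset.sum_add_distrib, Finset.sum_mul]
    congr 1
    refine Finset.sum_congr rfl fun i _ => ?_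
    ring
  rw [h3, h4]
  exact h2

/-- derivative of the orbit along a curve -/
theorem orb_curve {d : ℕ} {p : ℂ → PC d} {v : PC d} (hp : HasDerivAt p v 0) {c : ℂ → ℂ} {w : ℂ}
    (hc : HasDerivAt c w 0) (n : ℕ) :
    HasDerivAt (fun s => (ev (pol (p s)))^[n] (c s))
      (spdP (pol (p 0)) (pol v) (c 0) w n) 0 := by
  induction n with
  | zero => exact hc
  | succ n ih =>
    have h2 := step hp ih
    simp only [Function.iterate_succ_apply']
    exact h2

/-- the evaluation is smooth -/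
theorem ev_cd {d : ℕ} : ContDiff ℂ 1 (fun q : PC d × ℂ => ev (pol q.1) q.2) := by
  have h : (fun q : PC d × ℂ => ev (pol q.1) q.2) =
      fun q => ∑ i : Fin (d + 1), q.1 i * q.2 ^ (i : ℕ) := by
    funext q
    exact ev_pol _ _
  rw [h]
  fun_prop

/-- smoothness of the orbit maps -/
theorem orb_cd {d : ℕ} (n : ℕ) :
    ContDiff ℂ 1 (fun p : PC d × ℂ => (ev (pol p.1))^[n] p.2) := by
  induction n with
  | zero => exact contDiff_snd
  | succ n ih =>
    have h3 : ContDiff ℂ 1 (fun p : PC d × ℂ => (p.1, (ev (pol p.1))^[n] p.2)) :=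
      contDiff_fst.prodMk ih
    have h4 := ev_cd.comp h3
    have h5 : (fun p : PC d × ℂ => (ev (pol p.1))^[n + 1] p.2) =
        (fun q : PC d × ℂ => ev (pol q.1) q.2) ∘
          (fun p : PC d × ℂ => (p.1, (ev (pol p.1))^[n] p.2)) := by
      funext p
      simp only [Function.comp_apply, Function.iterate_succ_apply']
    rw [h5]
    exact h4

/-- **ORBP.** -/
theorem t_ORBP : Pool.Agent.H207.TP.S_ORBP := by
  intro d x z n
  have h1 : ContDiffAt ℂ 1 (fun p : PC d × ℂ => (ev (pol p.1))^[n] p.2) (x, z) :=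
    (orb_cd n).contDiffAt
  refine ⟨h1, fun v w => ?_⟩
  have h2 := (h1.differentiableAt (by norm_num)).hasFDerivAt
  obtain ⟨p, hp⟩ : ∃ p : ℂ → PC d, p = fun s => x + s • v := ⟨_, rfl⟩
  obtain ⟨c, hc⟩ : ∃ c : ℂ → ℂ, c = fun s => z + s • w := ⟨_, rfl⟩
  have hpd : HasDerivAt p v 0 := by
    rw [hp]
    have := ((hasDerivAt_id (0 : ℂ)).smul_const v).const_add x
    rw [one_smul] at this
    exact this
  have hcd : HasDerivAt c w 0 := by
    rw [hc]
    have := ((hasDerivAt_id (0 : ℂ)).smul_const w).const_add z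
    rw [one_smul] at this
    exact this
  have hp0 : p 0 = x := by rw [hp]; simp
  have hc0 : c 0 = z := by rw [hc]; simp
  have h3 := orb_curve hpd hcd n
  rw [hp0, hc0] at h3
  have h4 : HasDerivAt (fun s : ℂ => ((p s, c s) : PC d × ℂ)) (v, w) 0 := hpd.prodMk hcd
  have h2' : HasFDerivAt (fun p : PC d × ℂ => (ev (pol p.1))^[n] p.2)
      (fderiv ℂ (fun p : PC d × ℂ => (ev (pol p.1))^[n] p.2) (x, z)) (p 0, c 0) := by
    rw [hp0, hc0]
    exact h2
  have h5 := h2'.comp_hasDerivAt (0 : ℂ) h4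
  exact h5.unique h3

end Pool.Agent.H618.TP207
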